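import Pool.Agent.H346.NL.Ray

set_option autoImplicit false

/-!
# A geodesic ray of a free subgroup of a hyperbolic group that does not land

Word metrics, hyperbolicity and the Gromov boundary are those of `Pool.Agent.H322R3.Hyp`:
`wdist S` is the word metric, `IsHyperbolic S` is Gromov's four point condition for it,
`ConvInf S x` says that the sequence `x` converges at infinity, `Boundary S` is the set of the
classes `bmk S x` of such sequences.

The group (`Pool/Agent/H346/NL/Defs.lean`) has the eleven generators `a i, z i, y i, d i, e i, t`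
(`i = 0, 1`) and 24 relators of length 240:

* `t⁻¹ x t = w` with `x = a i` or `z i`, and `w` a positive word in the letters `z`;
* `t x t⁻¹ = w` with `x = a i` or `y i`, and `w` a positive word in the letters `y`;
* `z i d j (z i)⁻¹ = w`, `w` a positive word in the `d`; `y i e j (y i)⁻¹ = w`, `w` a positive word
  in the `e`;
* `d i a j (d i)⁻¹ = w`, `e i a j (e i)⁻¹ = w`, `w` a positive word in the `a`.

All windows of length 12 of the relators and their inverses are different, so this is a `C'(1/20)`
presentation and the group is hyperbolic. The subgroup generated by the `a i` and `t` is free of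
rank three. Put `a_j = t ^ j a t ^ (-j)` etc. The elements `a_j` with `j < k` act on the positive
words in the `d_k` by conjugation, those with `j > k` act on the positive words in the `e_k`, and
the `d_k` and `e_k` act on the positive words in the `a_k`. Let `u_0 = a⁻¹`,
`u_(n+1) = δ u_n a_i⁻¹ u_n⁻¹ δ⁻¹ u_n` with `i = n + 1`, `δ = d_i` for even `n` and `i = -(n + 1)`,
`δ = e_i` for odd `n`. Then `u_(n+1)⁻¹ = W u_n⁻¹` with a positive word `W` in the `a_i`, and so the
`u_n` lie on a geodesic ray of the free group. On the other hand `u_(n+1)` is represented by a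
geodesic word which starts with `t ^ (n + 1)` for even `n` and with `t ^ (-(n + 1))` for odd `n`.
-/

namespace Pool.Agent.Results.MP_5d327d_al.NonLandingRay

open Pool.Agent.H322R3.Hyp

/-- The sequence `r` of vertices is a geodesic ray from `1` for the word metric of `S`. -/
def IsGeodesicRay {Γ : Type} [Group Γ] (S : Set Γ) (r : ℕ → Γ) : Prop :=
  r 0 = 1 ∧ ∀ m n : ℕ, wdist S (r m) (r n) = |(m : ℝ) - n|

/-- The boundary point `ξ` is an accumulation point of the sequence `x`: a subsequence of `x`
converges at infinity and represents `ξ`. -/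
def IsAccPt {Γ : Type} [Group Γ] (S : Set Γ) (x : ℕ → Γ) (ξ : Boundary S) : Prop :=
  ∃ φ : ℕ → ℕ, StrictMono φ ∧ ∃ h : ConvInf S (fun k => x (φ k)), bmk S ⟨fun k => x (φ k), h⟩ = ξ

open Pool.Agent.H346.NL Pool.Agent.H346.SC in
/-- There are a hyperbolic group `G` with a finite generating set `S`, a subgroup `H` which is free
of rank three (hence hyperbolic) with a free basis `b`, and a geodesic ray `r` in the Cayley graph
of `H` with respect to `b` whose vertices accumulate at two different points of the Gromov boundary
of `G`. -/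
theorem result : ∃ (G : Type) (_ : Group G) (S : Set G) (H : Subgroup G) (b : Fin 3 → H)
    (r : ℕ → H) (ξ η : Boundary S),
    S.Finite ∧ Subgroup.closure S = ⊤ ∧ IsHyperbolic S ∧
    Function.Bijective (FreeGroup.lift b) ∧
    Subgroup.closure (Set.range b) = ⊤ ∧ IsHyperbolic (Set.range b) ∧
    IsGeodesicRay (Set.range b) r ∧
    ξ ≠ η ∧ IsAccPt S (fun n => (r n : G)) ξ ∧ IsAccPt S (fun n => (r n : G)) η := by
  have hfin : (Set.range (gen sys)).Finite := by
    have : Finite Lt := by
      apply Finite.of_surjective (fun x : Option (Fin 5 × Bool) => match x with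
        | none => Lt.t
        | some (0, i) => Lt.a i
        | some (1, i) => Lt.z i
        | some (2, i) => Lt.y i
        | some (3, i) => Lt.d i
        | some (4, i) => Lt.e i)
      rintro (i | i | i | i | i | _)
      · exact ⟨some (0, i), rfl⟩
      · exact ⟨some (1, i), rfl⟩
      · exact ⟨some (2, i), rfl⟩
      · exact ⟨some (3, i), rfl⟩
      · exact ⟨some (4, i), rfl⟩
      · exact ⟨none, rfl⟩
    exact Set.finite_range _
  have hyp : IsHyperbolic (Set.range (gen sys)) := gp_hyp (C := 240) (by
    rintro _ ⟨r, rfl⟩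
    exact le_rfl)
  -- the basis
  let e : Fin 3 ≃ Bool ⊕ Unit :=
    { toFun := ![Sum.inl false, Sum.inl true, Sum.inr ()]
      invFun := Sum.elim (fun b => cond b 1 0) (fun _ => 2)
      left_inv := by decide
      right_inv := by decide }
  have hrange : Set.range (f1 ∘ e) = Set.range f1 := e.surjective.range_comp f1
  have hlift : (FreeGroup.lift (f1 ∘ e)) = (FreeGroup.lift f1).comp
      (FreeGroup.freeGroupCongr e).toMonoidHom := by
    ext1 i
    simp
  have hbij : Function.Bijective (FreeGroup.lift (f1 ∘ e)) := by
    rw [hlift]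
    have hb : Function.Bijective (FreeGroup.lift f1) := ⟨f1_inj, f1_surj⟩
    exact hb.comp (FreeGroup.freeGroupCongr e).bijective
  -- convergence of the subsequences
  have conv : ∀ c : ℕ, c ≤ 1 → ConvInf (Set.range (gen sys))
      (fun k => ((ray (ws (2 * k + c + 1)).1.length : Hs) : G)) := by
    intro c hc
    unfold ConvInf
    rw [tendsto_pair_iff (fun i j => gprod (Set.range (gen sys)) 1
      ((ray (ws (2 * i + c + 1)).1.length : Hs) : G)
      ((ray (ws (2 * j + c + 1)).1.length : Hs) : G))]
    intro M
    obtain ⟨N, hN⟩ := exists_nat_ge M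
    refine ⟨N, fun i j hi hj => ?_⟩
    rw [ray_vertex, ray_vertex, gprod_uu]
    have h1 : sb (2 * i + c) = sb (2 * j + c) := by
      unfold sb
      congr 1
      omega
    have h2 := lcp_same h1
    have h3 : N ≤ Pool.Agent.H17R2.lcp (xl (2 * i + c + 1)) (xl (2 * j + c + 1)) := by omega
    exact hN.trans (by exact_mod_cast h3)
  have mono : ∀ c : ℕ, StrictMono (fun k => (ws (2 * k + c + 1)).1.length) := by
    intro c i j hij
    exact ws_strictMono (by omega)
  refine ⟨G, inferInstance, Set.range (gen sys), Hs, f1 ∘ e, ray,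
    bmk _ ⟨_, conv 0 (by norm_num)⟩, bmk _ ⟨_, conv 1 le_rfl⟩, hfin, gen_closure sys, hyp, hbij,
    ?_, ?_, ?_, ?_, ?_, ?_⟩
  · rw [hrange]; exact f1_closure
  · rw [hrange]; exact free_hyp f1 f1_closure f1_inj
  · rw [hrange]; exact ⟨ray_zero, ray_dist⟩
  · obtain ⟨δ, hδ0, hδ⟩ := hyp.base (gen_closure sys)
    intro heq
    have h := (bequiv_def _ _).1 ((bmk_eq_iff (gen_closure sys) hδ0 hδ _ _).1 heq)
    obtain ⟨N, hN⟩ := h 1
    have h1 := hN N N le_rfl le_rfl
    simp only at h1
    rw [ray_vertex, ray_vertex, gprod_uu, lcp_diff (by unfold sb; simp)] at h1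
    norm_num at h1
  · exact ⟨_, mono 0, conv 0 (by norm_num), rfl⟩
  · exact ⟨_, mono 1, conv 1 le_rfl, rfl⟩

end Pool.Agent.Results.MP_5d327d_al.NonLandingRay
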